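import Pool.Agent.TH195.KR.Galois

/-!
# The McKay–Galois conjecture follows from asymptotic equalities of numbers of fixed characters

Definitions used (in `Pool/Agent/TH195/KR`): `IsPChar p G f`, which says that `f` is an irreducible
complex character of `G` of degree prime to `p`; `fx p K G`, the number of such characters of `G`
fixed by all field automorphisms in `K`; `EquivBij p Γ G H`, the existence of a bijection between
the irreducible characters of degree prime to `p` of `G` and those of `H` which commutes with the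
action of all field automorphisms in `Γ`.
-/

set_option autoImplicit false

open Pool.Agent.TH195.KR

namespace Pool.Agent.Results.MP_1ae3da_al.AsymptoticFixedPoints

/-- the normalizer of the Sylow subgroup `S` -/
abbrev NS {p : ℕ} {G : Type} [Group G] (S : Sylow p G) : Subgroup G :=
  Subgroup.normalizer (S.toSubgroup : Set G)

/-- The group `𝓗` of Q1, inside the group of automorphisms of `ℂ`: it is generated by the
automorphisms `σ` with `σ(ξ) = ξ^(p^e)`, for some `e ≥ 0`, for all roots of unity `ξ` of order prime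
to `p`. -/
def HH (p : ℕ) : Subgroup (ℂ ≃+* ℂ) :=
  Subgroup.closure {σ | ∃ e : ℕ, ∀ (m : ℕ) (ξ : ℂ), 0 < m → m.Coprime p → ξ ^ m = 1 →
    σ ξ = ξ ^ p ^ e}

theorem tower {p : ℕ} (P : ∀ (G : Type) [Group G], Prop)
    (hP : ∀ (G : Type) [Group G] [Finite G], P G → P (G × Multiplicative (ZMod 2)))
    (G : Type) [Group G] [Finite G] (hG : P G) (S : Sylow p G) (j : ℕ) :
    ∃ (G' : Type) (_ : Group G') (_ : Finite G') (S' : Sylow p G'), P G' ∧
      Nat.card G' = 2 ^ j * Nat.card G ∧ ∀ K : Subgroup (ℂ ≃+* ℂ),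
        fx p K G' = 2 ^ j * fx p K G ∧ fx p K (NS S') = 2 ^ j * fx p K (NS S) := by
  have hc : Nat.card (Multiplicative (ZMod 2)) = 2 := by
    have : Nat.card (Multiplicative (ZMod 2)) = Nat.card (ZMod 2) := rfl
    rw [this, Nat.card_zmod]
  have hC : ∀ c : Multiplicative (ZMod 2), c * c = 1 := by decide
  induction j with
  | zero =>
    refine ⟨G, inferInstance, inferInstance, S, hG, by simp, fun K => ⟨by simp, by simp⟩⟩
  | succ j ih =>
    obtain ⟨G', i1, i2, S', h1, h2, h3⟩ := ih
    obtain ⟨T⟩ : Nonempty (Sylow p (Multiplicative (ZMod 2))) := inferInstance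
    refine ⟨G' × Multiplicative (ZMod 2), inferInstance, inferInstance, prodS S' T, hP G' h1, ?_,
      fun K => ⟨?_, ?_⟩⟩
    · rw [Nat.card_prod, h2, hc]
      ring
    · rw [fx_prod hC, (h3 K).1, hc]
      ring
    · have h4 := fx_norm hC K S' T
      rw [(h3 K).2, hc] at h4
      rw [show fx p K (NS (prodS S' T)) = 2 ^ j * fx p K (NS S) * 2 from h4]
      ring

/-- Let `p` be a prime, `Γ` a group of automorphisms of `ℂ` (for instance `HH p`) and `P` a class of
finite groups such that `G × C₂` is in `P` for all `G` in `P` (for instance all groups, or for odd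
`p` all groups with given Sylow `p`-subgroups). Bijections `Irr_{p'}(G) → Irr_{p'}(N_G(S))` which
commute with the action of `Γ` exist for all `G` in `P` and all `S ∈ Syl_p(G)`, if and only if the
numbers of `K`-fixed characters in `Irr_{p'}(G)` and in `Irr_{p'}(N_G(S))` differ by `o(|G|)` for
`G` in `P`, uniformly for the subgroups `K` of `Γ`. -/
theorem result (p : ℕ) [Fact p.Prime] (Γ : Subgroup (ℂ ≃+* ℂ)) (P : ∀ (G : Type) [Group G], Prop)
    (hP : ∀ (G : Type) [Group G] [Finite G], P G → P (G × Multiplicative (ZMod 2))) :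
    (∀ (G : Type) [Group G] [Finite G], P G → ∀ S : Sylow p G, EquivBij p Γ G (NS S)) ↔
      ∀ ε : ℝ, 0 < ε → ∃ N : ℕ, ∀ (G : Type) [Group G] [Finite G], P G → N ≤ Nat.card G →
        ∀ (S : Sylow p G) (K : Subgroup (ℂ ≃+* ℂ)), K ≤ Γ →
          |(fx p K G : ℝ) - (fx p K (NS S) : ℝ)| ≤ ε * Nat.card G := by
  constructor
  · intro h ε hε
    refine ⟨0, fun G _ _ hG _ S K hK => ?_⟩
    rw [(equivBij_iff Γ).1 (h G hG S) K hK, sub_self, abs_zero]
    positivity
  · intro h G _ _ hG S
    rw [equivBij_iff]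
    intro K hK
    by_contra hne
    have h1 : (1 : ℝ) ≤ |(fx p K G : ℝ) - (fx p K (NS S) : ℝ)| := by
      have h2 : (1 : ℤ) ≤ |(fx p K G : ℤ) - (fx p K (NS S) : ℤ)| := by
        apply Int.one_le_abs
        rw [sub_ne_zero]
        exact_mod_cast hne
      exact_mod_cast h2
    have hG0 : (0 : ℝ) < Nat.card G := by exact_mod_cast Nat.card_pos
    obtain ⟨N, hN⟩ := h (1 / (2 * (Nat.card G : ℝ))) (by positivity)
    obtain ⟨G', i1, i2, S', h3, h4, h5⟩ := tower P hP G hG S N
    have hle : N ≤ Nat.card G' := by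
      rw [h4]
      calc N ≤ 2 ^ N := Nat.lt_two_pow_self.le
        _ ≤ 2 ^ N * Nat.card G := Nat.le_mul_of_pos_right _ Nat.card_pos
    have h6 := hN G' h3 hle S' K hK
    rw [(h5 K).1, (h5 K).2, h4] at h6
    push_cast at h6
    have hC : (0 : ℝ) < (2 : ℝ) ^ N := by positivity
    have h7 : 1 / (2 * (Nat.card G : ℝ)) * ((2 : ℝ) ^ N * (Nat.card G : ℝ)) =
        (2 : ℝ) ^ N * (1 / 2) := by
      field_simp
    rw [h7, ← mul_sub, abs_mul, abs_of_pos hC] at h6
    have h8 := le_of_mul_le_mul_left h6 hC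
    linarith

end Pool.Agent.Results.MP_1ae3da_al.AsymptoticFixedPoints
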